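import Pool.Agent.Helper7.EC_E.GoalsM

/-!
# MP_ecc237_nt, PART E, packet MSUM: summability
-/

set_option autoImplicit false

open MeasureTheory Filter Topology Set

namespace EC237.ZE.PkMSUM

open EC237 EC237.ZE

theorem Hs_nonneg (a n : ℕ) : 0 ≤ Hs a n := Finset.sum_nonneg fun m _ => by positivity

theorem Hs_mono (a : ℕ) : Monotone (Hs a) := by
  refine monotone_nat_of_le_succ fun n => ?_
  unfold Hs
  rw [Finset.sum_range_succ]
  have : (0:ℝ) ≤ 1 / ((n:ℝ) + 1) ^ a := by positivity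
  linarith

theorem sumP (a : ℕ) (ha : 2 ≤ a) : Summable (fun n : ℕ => 1 / ((n:ℝ) + 1) ^ a) := by
  have h := (summable_nat_add_iff 1).2 (Real.summable_one_div_nat_pow.2 (show 1 < a by omega))
  refine h.congr fun n => ?_
  push_cast
  rfl

theorem Hs_le (a : ℕ) (ha : 2 ≤ a) (n : ℕ) : Hs a n ≤ ∑' m : ℕ, 1 / ((m:ℝ) + 1) ^ a :=
  (sumP a ha).sum_le_tsum _ fun m _ => by positivity

/-- `H_n ≤ 2 √n` -/
theorem Hs1_le (n : ℕ) : Hs 1 n ≤ 2 * Real.sqrt n := by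
  induction n with
  | zero => simp [Hs]
  | succ n ih =>
    have h1 : Hs 1 (n + 1) = Hs 1 n + 1 / ((n:ℝ) + 1) := by
      unfold Hs
      rw [Finset.sum_range_succ, pow_one]
    rw [h1]
    have hn : (0:ℝ) ≤ n := Nat.cast_nonneg n
    have hs1 : Real.sqrt ((n:ℝ) + 1) ^ 2 = (n:ℝ) + 1 := Real.sq_sqrt (by linarith)
    have hs0 : Real.sqrt (n:ℝ) ^ 2 = (n:ℝ) := Real.sq_sqrt hn
    have hp : 1 ≤ Real.sqrt ((n:ℝ) + 1) := by
      rw [Real.one_le_sqrt]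
      linarith
    have hq : 0 ≤ Real.sqrt (n:ℝ) := Real.sqrt_nonneg _
    have hle : Real.sqrt (n:ℝ) ≤ Real.sqrt ((n:ℝ) + 1) := Real.sqrt_le_sqrt (by linarith)
    have h2 : 1 / ((n:ℝ) + 1) ≤ 2 * (Real.sqrt ((n:ℝ) + 1) - Real.sqrt n) := by
      rw [div_le_iff₀ (by linarith)]
      set x := Real.sqrt ((n:ℝ) + 1)
      set y := Real.sqrt (n:ℝ)
      have h3 : (x - y) * (x + y) = 1 := by nlinarith
      have h4 : 0 ≤ x - y := by linarith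
      rw [← hs1]
      have h5 : (x - y) * (x + y) ≤ (x - y) * (2 * x ^ 2) := by
        refine mul_le_mul_of_nonneg_left ?_ h4
        nlinarith
      nlinarith
    push_cast
    linarith

theorem Hs1_sq (n : ℕ) : Hs 1 n ^ 2 ≤ 4 * (n:ℝ) := by
  have h := Hs1_le n
  have h0 := Hs_nonneg 1 n
  have hs0 : Real.sqrt (n:ℝ) ^ 2 = (n:ℝ) := Real.sq_sqrt (Nat.cast_nonneg n)
  calc Hs 1 n ^ 2 ≤ (2 * Real.sqrt n) ^ 2 := by gcongr
    _ = 4 * (n:ℝ) := by rw [mul_pow, hs0]; norm_num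

theorem En_nonneg (n : ℕ) : 0 ≤ En n :=
  Finset.sum_nonneg fun m _ => div_nonneg (Hs_nonneg 1 m) (by positivity)

theorem Zn_nonneg (n : ℕ) : 0 ≤ Zn n :=
  Finset.sum_nonneg fun m _ => div_nonneg (Hs_nonneg 1 m) (by positivity)

theorem Yn_nonneg (n : ℕ) : 0 ≤ Yn n :=
  Finset.sum_nonneg fun m _ => div_nonneg (Hs_nonneg 1 m) (by positivity)

theorem En_le (n : ℕ) : En n ≤ 4 * (n:ℝ) := by
  refine le_trans ?_ (Hs1_sq n)
  have h1 : Hs 1 n ^ 2 = ∑ m ∈ Finset.range n, Hs 1 n / ((m:ℝ) + 1) := by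
    rw [sq]
    nth_rewrite 2 [Hs]
    rw [Finset.mul_sum]
    refine Finset.sum_congr rfl fun m _ => ?_
    rw [pow_one]
    ring
  rw [h1, En]
  refine Finset.sum_le_sum fun m hm => ?_
  have := Hs_mono 1 (Finset.mem_range.1 hm).le
  gcongr

theorem sum32 : Summable (fun n : ℕ => Hs 1 n / ((n:ℝ) + 1) ^ 2) := by
  have h := (summable_nat_add_iff 1).2
    (Real.summable_one_div_nat_rpow.2 (show (1:ℝ) < 3 / 2 by norm_num))
  refine Summable.of_nonneg_of_le (fun n => div_nonneg (Hs_nonneg 1 n) (by positivity))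
    (fun n => ?_) (h.mul_left 2)
  have hn : (0:ℝ) < (n:ℝ) + 1 := by positivity
  have h1 : Real.sqrt (n:ℝ) ≤ Real.sqrt ((n:ℝ) + 1) := Real.sqrt_le_sqrt (by linarith)
  have h2 := Hs1_le n
  have h3 : ((n:ℝ) + 1) ^ (3 / 2 : ℝ) * Real.sqrt ((n:ℝ) + 1) = ((n:ℝ) + 1) ^ 2 := by
    rw [Real.sqrt_eq_rpow, ← Real.rpow_add hn, ← Real.rpow_natCast]
    norm_num
  have h4 : (0:ℝ) < ((n:ℝ) + 1) ^ (3 / 2 : ℝ) := Real.rpow_pos_of_pos hn _
  have h5 : 0 < Real.sqrt ((n:ℝ) + 1) := Real.sqrt_pos.2 hn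
  push_cast
  rw [← h3]
  calc Hs 1 n / (((n:ℝ) + 1) ^ (3 / 2 : ℝ) * Real.sqrt ((n:ℝ) + 1))
      ≤ (2 * Real.sqrt ((n:ℝ) + 1)) / (((n:ℝ) + 1) ^ (3 / 2 : ℝ) * Real.sqrt ((n:ℝ) + 1)) := by
        gcongr
        linarith
    _ = 2 * (1 / ((n:ℝ) + 1) ^ (3 / 2 : ℝ)) := by field_simp

theorem Zn_le (n : ℕ) : Zn n ≤ ∑' m : ℕ, Hs 1 m / ((m:ℝ) + 1) ^ 2 :=
  sum32.sum_le_tsum _ fun m _ => div_nonneg (Hs_nonneg 1 m) (by positivity)

theorem thm : G_MSUM := by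
  have key : ∀ (f : ℕ → ℝ) (C : ℝ) (a : ℕ), 2 ≤ a → (∀ n, 0 ≤ f n) → (∀ n, f n ≤ C) →
      Summable (fun n : ℕ => f n / ((n:ℝ) + 1) ^ a) := by
    intro f C a ha h0 hC
    refine Summable.of_nonneg_of_le (fun n => div_nonneg (h0 n) (by positivity)) (fun n => ?_)
      ((sumP a ha).mul_left C)
    rw [mul_one_div]
    have := hC n
    gcongr
  have key2 : ∀ (f : ℕ → ℝ), (∀ n, 0 ≤ f n) → (∀ n : ℕ, f n ≤ 4 * (n:ℝ)) →
      Summable (fun n : ℕ => f n / ((n:ℝ) + 1) ^ 3) := by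
    intro f h0 hC
    refine Summable.of_nonneg_of_le (fun n => div_nonneg (h0 n) (by positivity)) (fun n => ?_)
      ((sumP 2 le_rfl).mul_left 4)
    have hn : (0:ℝ) < (n:ℝ) + 1 := by positivity
    have := hC n
    calc f n / ((n:ℝ) + 1) ^ 3 ≤ (4 * ((n:ℝ) + 1)) / ((n:ℝ) + 1) ^ 3 := by
          gcongr
          linarith
      _ = 4 * (1 / ((n:ℝ) + 1) ^ 2) := by field_simp
  have mono : ∀ (f : ℕ → ℝ) (a : ℕ), (∀ n, 0 ≤ f n) →
      Summable (fun n : ℕ => f n / ((n:ℝ) + 1) ^ a) →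
      Summable (fun n : ℕ => f n / ((n:ℝ) + 1) ^ (a + 1)) := by
    intro f a h0 h
    refine Summable.of_nonneg_of_le (fun n => div_nonneg (h0 n) (by positivity)) (fun n => ?_) h
    have hn : (1:ℝ) ≤ (n:ℝ) + 1 := by
      have : (0:ℝ) ≤ n := Nat.cast_nonneg n
      linarith
    have := h0 n
    gcongr
    omega
  have s3 := mono _ 2 (Hs_nonneg 1) sum32
  refine ⟨sumP 4 (by norm_num), sumP 5 (by norm_num), s3, mono _ 3 (Hs_nonneg 1) s3,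
    key _ _ 3 (by norm_num) (Hs_nonneg 2) (Hs_le 2 le_rfl),
    key _ _ 2 (by norm_num) (Hs_nonneg 3) (Hs_le 3 (by norm_num)),
    key2 _ En_nonneg En_le, key _ _ 2 (by norm_num) Zn_nonneg Zn_le,
    key2 _ (fun n => sq_nonneg _) Hs1_sq,
    fun n => ⟨Hs_nonneg 1 n, En_nonneg n, Zn_nonneg n, Yn_nonneg n⟩⟩

end EC237.ZE.PkMSUM
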